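import Pool.Agent.Y155.BKT.Quant

set_option autoImplicit false

/-!
# The BKT phase of the Villain model under bond dilution: an explicit threshold

`kap β β' = 1 - tanh (π² β / 4) √(β' / (β' - β)) exp (- π² β β' / (2 (β' - β)))` lies in `[0, 1)` for
`0 < β < β'`, and the averaged two-point function at `(p, β)` is at most the one at `(p', β')`
whenever `kap β β' p ≤ p'`, for all distances. So for `β > betaKT` the averaged two-point function
decays polynomially for all `p ≥ kap β0 β`, `betaKT < β0 < β`, and for all `p > kap betaKT β`.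

The definitions (`TT`, `vR`, `vil`, `ccos`, `box`, `edges`, `ext`, `unif`, `wt`, `tpf`, `kV`,
`Jof`, `tpInf`, `avg`) are in `Pool/Agent/H890/XY/Stmts.lean`, `Poly1` and `betaKT` are in
`Pool/Agent/H890/XY/Vil.lean`, `bern` in `Pool/Agent/H890/Tilt/Key.lean` and `kap` in
`Pool/Agent/Y155/BKT/Quant.lean`. The proof makes the constants in the one-edge inequality of the
starting library (`Pool.Agent.H890.XY.SE`) explicit.
-/

namespace Pool.Agent.Results.MP_84bec1_pr.ExplicitThreshold

open MeasureTheory Set Filter Topology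
open Pool.Agent.H890.XY Pool.Agent.Y155.BKT

theorem result :
    -- the finite-volume two-point functions converge to `tpInf`
    (∀ (β : ℝ) (ω : Ed → Bool) (x : Vx),
      Tendsto (fun L : ℕ => tpf kV (Jof β ω) (box L) (edges L) x) atTop (𝓝 (tpInf kV β ω x))) ∧
    -- persistence of polynomial decay
    (∀ β : ℝ, betaKT < ENNReal.ofReal β →
      (∃ p0 : unitInterval, 1 / 2 < (p0 : ℝ) ∧ (p0 : ℝ) < 1 ∧
        ∀ p : unitInterval, p0 ≤ p → Poly1 (avg kV p β)) ∧
      -- explicit thresholds
      (∀ β0 : ℝ, betaKT < ENNReal.ofReal β0 → β0 < β →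
        ∀ p : unitInterval, kap β0 β ≤ p → Poly1 (avg kV p β)) ∧
      ∀ p : unitInterval, kap betaKT.toReal β < p → Poly1 (avg kV p β)) ∧
    -- explicit comparison at all distances
    ∀ β β' : ℝ, 0 < β → β < β' → 0 ≤ kap β β' ∧ kap β β' < 1 ∧
      ∀ p p' : unitInterval, kap β β' * p ≤ p' → ∀ x, avg kV p β x ≤ avg kV p' β' x :=
  ⟨fun β ω x => Gen.tpf_tendsto goodV β ω x,
    fun β hβ => ⟨persistence z0m β hβ, fun _ h0 hlt p hp => persist h0 hlt p hp,
      fun p hp => threshold hβ p hp⟩,
    fun _ _ hβ hlt => ⟨(kap_mem hβ hlt).1, (kap_mem hβ hlt).2,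
      fun p p' hp x => transfer hβ hlt p p' hp x⟩⟩

end Pool.Agent.Results.MP_84bec1_pr.ExplicitThreshold
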